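import Pool.Agent.N340.PN.A1
import Pool.Agent.N931.PN.Stm5
import Pool.Agent.Y993.SN.Cor

/-! Project PN (helper931), piece PN/CE1: one arm at a corner. -/

set_option autoImplicit false

namespace Pool.Agent.N234.PN.CE1

open H974 H973 H12S H389NS H984N H984P H342P Finset
open Pool.Agent.N116.EW
open Pool.Agent.N690.EW (sd_le le_sd)
open Pool.Agent.N931.PN (OAr DAr pts oE cE)
open Pool.Agent.Y993.SN (QC QC_incr quarter_bound reach_inR)

/-- Crossing from the box of radius `a` around `z` to distance `N` from `z`, in a rectangle. -/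
def CX (l r b t : ℤ) (z : Vtx) (a N : ℕ) (F : Finset Edg) : Prop :=
  ∃ u w : Vtx, inR l r b t u ∧ sd u z ≤ a ∧ (N : ℤ) ≤ sd w z ∧ Reach (↑F : Set Edg) u w

theorem CX_incr (S : Finset Edg) (l r b t : ℤ) (z : Vtx) (a N : ℕ) :
    IncrE S (CX l r b t z a N) := by
  intro F G h _ hF
  obtain ⟨u, w, h1, h2, h3, h4⟩ := hF
  exact ⟨u, w, h1, h2, h3, h4.mono (by exact_mod_cast h)⟩

/-- The deterministic part. -/
theorem CX_QC (g : LSym) {l r b t : ℤ} {z : Vtx} {a N : ℕ} (haN : a ≤ N)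
    (hg : ∀ p : Vtx, inR l r b t p → g.ψ p = (|p.1 - z.1|, |p.2 - z.2|))
    {F : Finset Edg} (hF : F ⊆ RE l r b t) (h : CX l r b t z a N F) :
    QC (a:ℤ) (N:ℤ) (g.mp F) := by
  obtain ⟨u, w, h1, h2, h3, h4⟩ := h
  have hw : inR l r b t w :=
    reach_inR (F := (F : Set Edg)) (fun e he => hF (Finset.mem_coe.mp he)) h1 h4
  have hu' := hg u h1
  have hw' := hg w hw
  unfold sd at h2 h3
  have h5 : Reach (↑(g.mp F) : Set Edg) (g.ψ u) (g.ψ w) := by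
    rw [g.coe_mp]
    exact g.reach h4
  have h2a : |u.1 - z.1| ≤ a := (le_max_left _ _).trans h2
  have h2b : |u.2 - z.2| ≤ a := (le_max_right _ _).trans h2
  have h0a : 0 ≤ |u.1 - z.1| := abs_nonneg _
  have h0b : 0 ≤ |u.2 - z.2| := abs_nonneg _
  have haN' : (a : ℤ) ≤ N := by exact_mod_cast haN
  have hu1 : inR 0 (a:ℤ) 0 (a:ℤ) (g.ψ u) := by
    rw [hu']
    exact ⟨⟨h0a, h2a⟩, h0b, h2b⟩
  have hu2 : inR 0 (N:ℤ) 0 (N:ℤ) (g.ψ u) := by
    rw [hu']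
    exact ⟨⟨h0a, h2a.trans haN'⟩, h0b, h2b.trans haN'⟩
  obtain ⟨v, hv1, hv2, hv3⟩ := first_exit (a := -1) (b := (N:ℤ)) (c := -1) (d := (N:ℤ))
    (by unfold inR at hu2 ⊢; omega) h5 (by
      rw [hw']
      rcases le_max_iff.1 h3 with h | h
      · exact Or.inr (Or.inl h)
      · exact Or.inr (Or.inr (Or.inr h)))
  have hE : ∀ e ∈ (↑(g.mp F) ∩ ↑(RE (-1) (N:ℤ) (-1) (N:ℤ)) : Set Edg),
      e ∈ RE 0 (N:ℤ) 0 (N:ℤ) := by
    rintro e ⟨he1, he2⟩
    have e2 := mem_RE_ends (Finset.mem_coe.mp he2)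
    have he3 : g.φ.symm e ∈ F := by
      rw [← g.mem_mp]
      exact Finset.mem_coe.mp he1
    have e3 := mem_RE_ends (hF he3)
    have hp : ∀ p : Vtx, inR l r b t p → 0 ≤ (g.ψ p).1 ∧ 0 ≤ (g.ψ p).2 := by
      intro p hp
      rw [hg p hp]
      exact ⟨abs_nonneg _, abs_nonneg _⟩
    have k := g.compat (g.φ.symm e)
    rw [Equiv.apply_symm_apply] at k
    have f1 := hp _ e3.1
    have f2 := hp _ e3.2
    unfold inR at e2
    rcases k with ⟨k1, k2⟩ | ⟨k1, k2⟩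
    · rw [← k1] at f1
      rw [← k2] at f2
      exact mem_RE_of_ends (by unfold inR; omega) (by unfold inR; omega)
    · rw [← k2] at f1
      rw [← k1] at f2
      exact mem_RE_of_ends (by unfold inR; omega) (by unfold inR; omega)
  have hvN : inR 0 (N:ℤ) 0 (N:ℤ) v := reach_inR hE hu2 hv3
  refine ⟨g.ψ u, v, hu1, hvN, ?_, hv3.mono ?_⟩
  · unfold inR at hvN
    omega
  · intro e he
    exact ⟨he.1, Finset.mem_coe.mpr (hE e he)⟩

theorem corner_g (g : LSym) {l r b t : ℤ} {z : Vtx} {a N : ℕ} (haN : a ≤ N)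
    (hg : ∀ p : Vtx, inR l r b t p → g.ψ p = (|p.1 - z.1|, |p.2 - z.2|)) :
    Pr (fun _ => (1/2 : ℝ)) (RE l r b t) (CX l r b t z a N) ≤
      Pr (fun _ => (1/2 : ℝ)) (RE 0 (N:ℤ) 0 (N:ℤ)) (QC (a:ℤ) (N:ℤ)) := by
  have i1 : Pr (fun _ => (1/2 : ℝ)) (RE l r b t) (CX l r b t z a N) ≤
      Pr (fun _ => (1/2 : ℝ)) (RE l r b t) (fun F => QC (a:ℤ) (N:ℤ) (g.mp F)) := by
    apply Pr_mono okhalf
    intro F hF h
    exact CX_QC g haN hg hF h
  have i2 : Pr (fun _ => (1/2 : ℝ)) (RE l r b t) (fun F => QC (a:ℤ) (N:ℤ) (g.mp F)) =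
      Pr (fun _ => (1/2 : ℝ)) (g.mp (RE l r b t)) (QC (a:ℤ) (N:ℤ)) := (g.pr _ _ _).symm
  have i3 : Pr (fun _ => (1/2 : ℝ)) (g.mp (RE l r b t)) (QC (a:ℤ) (N:ℤ)) ≤
      Pr (fun _ => (1/2 : ℝ)) (g.mp (RE l r b t) ∪ RE 0 (N:ℤ) 0 (N:ℤ)) (QC (a:ℤ) (N:ℤ)) :=
    Pr_mono_set okhalf Finset.subset_union_left (QC_incr _ _ _)
  have i4 : Pr (fun _ => (1/2 : ℝ)) (g.mp (RE l r b t) ∪ RE 0 (N:ℤ) 0 (N:ℤ)) (QC (a:ℤ) (N:ℤ)) =
      Pr (fun _ => (1/2 : ℝ)) (RE 0 (N:ℤ) 0 (N:ℤ)) (QC (a:ℤ) (N:ℤ)) := by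
    apply Pr_local Finset.subset_union_right
    intro F _
    unfold QC
    rw [coe_inter_eq (Finset.Subset.refl _)]
  calc Pr (fun _ => (1/2 : ℝ)) (RE l r b t) (CX l r b t z a N) ≤ _ := i1
    _ = _ := i2
    _ ≤ _ := i3
    _ = _ := i4

/-- One arm at a corner of a rectangle. -/
theorem corner {l r b t : ℤ} {z : Vtx} (hz1 : z.1 = l ∨ z.1 = r) (hz2 : z.2 = b ∨ z.2 = t)
    {a N : ℕ} (haN : a ≤ N) :
    Pr (fun _ => (1/2 : ℝ)) (RE l r b t) (CX l r b t z a N) ≤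
      Pr (fun _ => (1/2 : ℝ)) (RE 0 (N:ℤ) 0 (N:ℤ)) (QC (a:ℤ) (N:ℤ)) := by
  rcases hz1 with k1 | k1 <;> rcases hz2 with k2 | k2
  · refine corner_g (trl (-l) (-b)) haN ?_
    rintro ⟨x, y⟩ hp
    unfold inR at hp
    simp only at hp
    rw [k1, k2]
    simp only [trl_ψ]
    rw [abs_of_nonneg (by omega), abs_of_nonneg (by omega)]
    ext <;> simp <;> ring
  · refine corner_g (Pool.Agent.Y993.SN.cmp (trl (-l) 0) (rfy t)) haN ?_
    rintro ⟨x, y⟩ hp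
    unfold inR at hp
    simp only at hp
    rw [k1, k2]
    simp only [Pool.Agent.Y993.SN.cmp, Equiv.trans_apply, rfy_ψ, trl_ψ]
    rw [abs_of_nonneg (by omega), abs_of_nonpos (by omega)]
    ext <;> simp <;> ring
  · refine corner_g (Pool.Agent.Y993.SN.cmp (rfx r) (trl 0 (-b))) haN ?_
    rintro ⟨x, y⟩ hp
    unfold inR at hp
    simp only at hp
    rw [k1, k2]
    simp only [Pool.Agent.Y993.SN.cmp, Equiv.trans_apply, rfx_ψ, trl_ψ]
    rw [abs_of_nonpos (by omega), abs_of_nonneg (by omega)]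
    ext <;> simp <;> ring
  · refine corner_g (Pool.Agent.Y993.SN.cmp (rfx r) (rfy t)) haN ?_
    rintro ⟨x, y⟩ hp
    unfold inR at hp
    simp only at hp
    rw [k1, k2]
    simp only [Pool.Agent.Y993.SN.cmp, Equiv.trans_apply, rfx_ψ, rfy_ψ]
    rw [abs_of_nonpos (by omega), abs_of_nonpos (by omega)]
    ext <;> simp

/-- Open arms. -/
theorem open_bound {D : Dm} {z : Vtx} {d R : ℕ} (hdR : d < R)
    (hz1 : z.1 = D.l ∨ z.1 = D.r) (hz2 : z.2 = 0 ∨ z.2 = D.h) :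
    Pr (fun _ => (1 / 2 : ℝ)) D.edges (OAr z d R) ≤
      Pr (fun _ => (1/2 : ℝ)) (RE 0 (R:ℤ) 0 (R:ℤ)) (QC (d:ℤ) (R:ℤ)) := by
  refine le_trans ?_ (corner (l := D.l) (r := D.r) (b := 0) (t := D.h) hz1 hz2 hdR.le)
  apply Pr_mono okhalf
  intro F hF hN
  obtain ⟨u, w, hu, hw, hr⟩ := hN
  have hne : u ≠ w := by
    rintro rfl
    omega
  have hG : ∀ e ∈ oE z d R F, e ∈ ES (Pool.Agent.N690.EW.V D.l D.r 0 D.h) := by
    intro e he
    rw [Pool.Agent.N690.EW.ES_V]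
    exact hF he.1
  obtain ⟨hu2, hw2⟩ := Pool.Agent.N690.EW.reach_ne_mem hG hr hne
  rw [Pool.Agent.N690.EW.mem_V] at hu2
  exact ⟨u, w, hu2, hu, hw, hr.mono Set.inter_subset_left⟩

/-- Dual arms. -/
theorem dual_bound {D : Dm} {z v : Vtx} {d R : ℕ} (hdR : d + 3 < R)
    (hz1 : v.1 = D.l - 1 ∨ v.1 = D.r) (hz2 : v.2 = -1 ∨ v.2 = D.h) (hzv : sd z v ≤ 1) :
    Pr (fun _ => (1 / 2 : ℝ)) D.edges (DAr D z d R) ≤
      Pr (fun _ => (1/2 : ℝ)) (RE 0 ((R - 1 : ℕ):ℤ) 0 ((R - 1 : ℕ):ℤ))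
        (QC ((d + 2 : ℕ):ℤ) ((R - 1 : ℕ):ℤ)) := by
  refine le_trans ?_ (corner (l := D.l - 1) (r := D.r) (b := -1) (t := D.h) hz1 hz2
    (by omega : d + 2 ≤ R - 1))
  set T : Finset Vtx := Pool.Agent.N690.EW.V (D.l - 1) D.r (-1) D.h with hT
  have hsub : dmp D.edges ⊆ RE (D.l - 1) D.r (-1) D.h := by
    rintro ⟨x, y, _ | _⟩ he
    · rw [mem_dmp, dls_f, Dm.edges, mem_RE_true] at he
      rw [mem_RE_false]
      omega
    · rw [mem_dmp, dls_t, Dm.edges, mem_RE_false] at he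
      rw [mem_RE_true]
      omega
  have h2 : Pr (fun _ => (1 / 2 : ℝ)) D.edges (DAr D z d R) ≤
      Pr (fun _ => (1 / 2 : ℝ)) D.edges
        (fun F => CX (D.l - 1) D.r (-1) D.h v (d + 2) (R - 1) (dmp (D.edges \ F))) := by
    apply Pr_mono okhalf
    intro F hF hN
    obtain ⟨f, g, hu, hg, hr⟩ := hN
    rw [← reach_dl] at hr
    have hne : f ≠ g := by
      rintro rfl
      omega
    have hG : ∀ e' ∈ (dl '' cE D z d R F : Set Edg), e' ∈ dmp (D.edges \ F) := by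
      rintro e' ⟨e, ⟨he1, he2, he3⟩, rfl⟩
      rw [mem_dmp, Equiv.symm_apply_apply, Finset.mem_sdiff]
      exact ⟨he1, he2⟩
    have hG2 : ∀ e' ∈ (dl '' cE D z d R F : Set Edg), e' ∈ ES T := by
      intro e' he'
      rw [hT, Pool.Agent.N690.EW.ES_V]
      apply hsub
      have h5 := hG e' he'
      rw [mem_dmp, Finset.mem_sdiff] at h5
      rw [mem_dmp]
      exact h5.1
    obtain ⟨hf2, hg2⟩ := Pool.Agent.N690.EW.reach_ne_mem (T := T) hG2 hr hne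
    rw [hT, Pool.Agent.N690.EW.mem_V] at hf2
    rw [sd_le] at hu hzv
    rw [le_sd] at hg
    refine ⟨f, g, hf2, ?_, ?_, hr.mono ?_⟩
    · rw [sd_le]
      push_cast
      omega
    · rw [le_sd]
      have h1R : 1 ≤ R := by omega
      push_cast [Nat.cast_sub h1R]
      omega
    · intro e he
      exact_mod_cast hG e he
  have h3 : Pr (fun _ => (1 / 2 : ℝ)) D.edges
      (fun F => CX (D.l - 1) D.r (-1) D.h v (d + 2) (R - 1) (dmp (D.edges \ F))) ≤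
      Pr (fun _ => (1 / 2 : ℝ)) (RE (D.l - 1) D.r (-1) D.h)
        (CX (D.l - 1) D.r (-1) D.h v (d + 2) (R - 1)) := by
    have e1 := Pr_compl (fun _ : Edg => (1 / 2 : ℝ)) D.edges
      (fun F => CX (D.l - 1) D.r (-1) D.h v (d + 2) (R - 1) (dmp F))
    have e2 : (fun _ : Edg => (1 : ℝ) - 1 / 2) = fun _ => (1 / 2 : ℝ) := by
      funext _; norm_num
    rw [e2] at e1
    rw [← e1, ← pr_dmp]
    exact Pr_mono_set okhalf hsub (CX_incr _ _ _ _ _ _ _ _)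
  exact h2.trans h3

/-- **One arm at a corner.** -/
theorem main : Pool.Agent.N931.PN.S_CE1 := by
  intro κ hκ
  obtain ⟨C₀, hC₀, hq⟩ := quarter_bound
  refine ⟨6 * C₀ + 8, 1, by positivity, one_pos, ?_⟩
  intro n D hn hS i hi d R hd hdR hRq
  have hd' : (1 : ℝ) ≤ d := by exact_mod_cast hd
  have hdR' : (d : ℝ) ≤ R := by exact_mod_cast hdR
  have hR0 : (0 : ℝ) < R := by linarith
  have hpow0 : (0 : ℝ) ≤ ((d : ℝ) / R) ^ (2 / 3 : ℝ) := by positivity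
  show Pr (fun _ => (1 / 2 : ℝ)) D.edges (OAr (pts D i) d R) ≤
      (6 * C₀ + 8) * ((d : ℝ) / R) ^ (2 / 3 : ℝ) ∧
    Pr (fun _ => (1 / 2 : ℝ)) D.edges (DAr D (pts D i) d R) ≤
      (6 * C₀ + 8) * ((d : ℝ) / R) ^ (2 / 3 : ℝ)
  by_cases h8 : R ≤ 8 * d
  · -- trivial case
    have h2 : (1 / 8 : ℝ) ≤ (d : ℝ) / R := by
      rw [le_div_iff₀ hR0]
      have : (R : ℝ) ≤ 8 * d := by exact_mod_cast h8
      linarith
    have h3 : (1 / 8 : ℝ) ^ (2 / 3 : ℝ) ≤ ((d : ℝ) / R) ^ (2 / 3 : ℝ) :=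
      Real.rpow_le_rpow (by norm_num) h2 (by norm_num)
    have h4 : (1 / 8 : ℝ) ^ (2 / 3 : ℝ) = 1 / 4 := by
      rw [show (1 / 8 : ℝ) = (1 / 2) ^ (3 : ℝ) by norm_num, ← Real.rpow_mul (by norm_num),
        show (3 : ℝ) * (2 / 3) = 2 by norm_num]
      norm_num
    rw [h4] at h3
    constructor
    · have h1 : Pr (fun _ => (1 / 2 : ℝ)) D.edges (OAr (pts D i) d R) ≤ 1 :=
        Pr_le_one okhalf _ _
      nlinarith
    · have h1 : Pr (fun _ => (1 / 2 : ℝ)) D.edges (DAr D (pts D i) d R) ≤ 1 :=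
        Pr_le_one okhalf _ _
      nlinarith
  · push Not at h8
    have hcor : ((pts D i).1 = D.l ∨ (pts D i).1 = D.r) ∧
        ((pts D i).2 = 0 ∨ (pts D i).2 = D.h) := by
      have h4 : (i : ℕ) = 0 ∨ (i : ℕ) = 1 ∨ (i : ℕ) = 2 ∨ (i : ℕ) = 3 := by omega
      rcases h4 with h | h | h | h
      · obtain rfl : i = 0 := Fin.ext h
        exact ⟨Or.inl rfl, Or.inl rfl⟩
      · obtain rfl : i = 1 := Fin.ext h
        exact ⟨Or.inr rfl, Or.inl rfl⟩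
      · obtain rfl : i = 2 := Fin.ext h
        exact ⟨Or.inl rfl, Or.inr rfl⟩
      · obtain rfl : i = 3 := Fin.ext h
        exact ⟨Or.inr rfl, Or.inr rfl⟩
    set z := pts D i with hz
    obtain ⟨hz1, hz2⟩ := hcor
    constructor
    · refine (open_bound (by omega) hz1 hz2).trans ((hq d R hd hdR).trans ?_)
      nlinarith
    · have hv : ∃ v : Vtx, (v.1 = D.l - 1 ∨ v.1 = D.r) ∧ (v.2 = -1 ∨ v.2 = D.h) ∧
          sd z v ≤ 1 := by
        refine ⟨(if z.1 = D.l then D.l - 1 else D.r, if z.2 = 0 then -1 else D.h), ?_, ?_, ?_⟩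
        · simp only
          split_ifs <;> simp
        · simp only
          split_ifs <;> simp
        · rw [sd_le]
          simp only
          split_ifs <;> omega
      obtain ⟨v, hv1, hv2, hv3⟩ := hv
      refine (dual_bound (by omega) hv1 hv2 hv3).trans
        ((hq (d + 2) (R - 1) (by omega) (by omega)).trans ?_)
      have hR1 : (1 : ℝ) < R := by
        have : 1 < R := by omega
        exact_mod_cast this
      have h8' : 8 * (d : ℝ) < R := by exact_mod_cast h8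
      have hcast : ((R - 1 : ℕ) : ℝ) = (R : ℝ) - 1 := by
        rw [Nat.cast_sub (by omega)]
        norm_num
      rw [hcast]
      push_cast
      have h5 : ((d : ℝ) + 2) / (R - 1) ≤ 6 * ((d : ℝ) / R) := by
        rw [div_le_iff₀ (by linarith), mul_assoc, div_mul_eq_mul_div, mul_div_assoc']
        rw [le_div_iff₀ hR0]
        nlinarith
      have h6 : (((d : ℝ) + 2) / (R - 1)) ^ (2 / 3 : ℝ) ≤ 6 * ((d : ℝ) / R) ^ (2 / 3 : ℝ) := by
        have h7 : (((d : ℝ) + 2) / (R - 1)) ^ (2 / 3 : ℝ) ≤ (6 * ((d : ℝ) / R)) ^ (2 / 3 : ℝ) :=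
          Real.rpow_le_rpow (div_nonneg (by linarith) (by linarith)) h5 (by norm_num)
        refine h7.trans ?_
        rw [Real.mul_rpow (by norm_num) (by positivity)]
        apply mul_le_mul_of_nonneg_right _ hpow0
        calc (6 : ℝ) ^ (2 / 3 : ℝ) ≤ (6 : ℝ) ^ (1 : ℝ) :=
              Real.rpow_le_rpow_of_exponent_le (by norm_num) (by norm_num)
          _ = 6 := Real.rpow_one 6
      nlinarith [mul_le_mul_of_nonneg_left h6 hC₀.le]

end Pool.Agent.N234.PN.CE1
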